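import Pool.Agent.N162.CW.Stm

/-!
Project CW (helper162), part CW/RED: reduction of a polynomial modulo a monic polynomial.
-/

set_option autoImplicit false

open MvPolynomial

namespace Pool.Agent.N232.CW

open Pool.Agent.N162.CV (MonicY)

section
variable {Ω : Type} [Field Ω]

theorem sum_two (m : Fin 2 →₀ ℕ) : (m.sum fun _ e => e) = m 0 + m 1 := by
  rw [Finsupp.sum_fintype _ _ (fun _ => rfl), Fin.sum_univ_two]

theorem deg_le {P : MvPolynomial (Fin 2) Ω} {m : Fin 2 →₀ ℕ} (h : m ∈ P.support) :
    m 0 + m 1 ≤ P.totalDegree := by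
  rw [← sum_two]
  exact le_totalDegree h

theorem deg_of {P : MvPolynomial (Fin 2) Ω} {k : ℕ} (h : ∀ m ∈ P.support, m 0 + m 1 ≤ k) :
    P.totalDegree ≤ k := by
  refine Finset.sup_le fun m hm => ?_
  rw [sum_two]
  exact h m hm

/-- `P` is congruent to a polynomial of degree at most `k` and of degree less than `g` in `Y` -/
def Good (G : MvPolynomial (Fin 2) Ω) (g k : ℕ) (P : MvPolynomial (Fin 2) Ω) : Prop :=
  ∃ P' : MvPolynomial (Fin 2) Ω, G ∣ P - P' ∧ ∀ m ∈ P'.support, m 0 + m 1 ≤ k ∧ m 1 < g

theorem good_zero (G : MvPolynomial (Fin 2) Ω) (g k : ℕ) : Good G g k 0 :=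
  ⟨0, by simp, fun m hm => by simp at hm⟩

theorem good_add {G P Q : MvPolynomial (Fin 2) Ω} {g k : ℕ} (hP : Good G g k P)
    (hQ : Good G g k Q) : Good G g k (P + Q) := by
  classical
  obtain ⟨P', h1, h2⟩ := hP
  obtain ⟨Q', h3, h4⟩ := hQ
  refine ⟨P' + Q', ?_, fun m hm => ?_⟩
  · have e : P + Q - (P' + Q') = (P - P') + (Q - Q') := by ring
    rw [e]
    exact dvd_add h1 h3
  · rcases Finset.mem_union.1 (support_add hm) with h | h
    · exact h2 m h
    · exact h4 m h

theorem good_sum {ι : Type} {G : MvPolynomial (Fin 2) Ω} {g k : ℕ} (s : Finset ι)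
    (f : ι → MvPolynomial (Fin 2) Ω) (h : ∀ i ∈ s, Good G g k (f i)) :
    Good G g k (∑ i ∈ s, f i) :=
  Finset.sum_induction f (Good G g k) (fun _ _ => good_add) (good_zero G g k) h

theorem good_congr {G P Q : MvPolynomial (Fin 2) Ω} {g k : ℕ} (h : G ∣ P - Q)
    (hQ : Good G g k Q) : Good G g k P := by
  obtain ⟨Q', h3, h4⟩ := hQ
  refine ⟨Q', ?_, h4⟩
  have e : P - Q' = (P - Q) + (Q - Q') := by ring
  rw [e]
  exact dvd_add h h3

/-- the remainder of `Y ^ g` -/
noncomputable def G0 (G : MvPolynomial (Fin 2) Ω) : MvPolynomial (Fin 2) Ω :=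
  monomial (Finsupp.single 1 G.totalDegree) 1 -
    C (G.coeff (Finsupp.single 1 G.totalDegree))⁻¹ * G

theorem G0_supp {G : MvPolynomial (Fin 2) Ω} (hG : MonicY G) {e : Fin 2 →₀ ℕ}
    (he : e ∈ (G0 G).support) : e 0 + e 1 ≤ G.totalDegree ∧ e 1 < G.totalDegree := by
  classical
  have h1 : e 0 + e 1 ≤ G.totalDegree := by
    have h2 := support_sub (Fin 2) _ _ he
    rcases Finset.mem_union.1 h2 with h | h
    · have h3 := support_monomial_subset h
      rw [Finset.mem_singleton] at h3
      rw [h3]
      simp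
    · rw [← smul_eq_C_mul] at h
      exact deg_le (support_smul h)
  refine ⟨h1, lt_of_le_of_ne (by omega) fun h3 => ?_⟩
  have h4 : e 0 = 0 := by omega
  have h5 : e = Finsupp.single 1 G.totalDegree := by
    ext i
    fin_cases i
    · simpa using h4
    · simpa using h3
  rw [mem_support_iff] at he
  apply he
  rw [h5]
  unfold G0
  rw [coeff_sub, coeff_monomial, if_pos rfl, coeff_C_mul, inv_mul_cancel₀ hG, sub_self]

theorem good_mono {G : MvPolynomial (Fin 2) Ω} (hG : MonicY G) (k : ℕ) (n : ℕ) :
    ∀ (m : Fin 2 →₀ ℕ), m 1 = n → m 0 + m 1 ≤ k → ∀ c : Ω,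
      Good G G.totalDegree k (monomial m c) := by
  classical
  induction n using Nat.strong_induction_on with
  | _ n ih =>
    intro m hm hk c
    rcases Nat.lt_or_ge (m 1) G.totalDegree with h | h
    · refine ⟨monomial m c, by simp, fun m' hm' => ?_⟩
      have h3 := support_monomial_subset hm'
      rw [Finset.mem_singleton] at h3
      rw [h3]
      exact ⟨hk, h⟩
    · set m' : Fin 2 →₀ ℕ := m - Finsupp.single 1 G.totalDegree with hm'
      have e1 : m' + Finsupp.single 1 G.totalDegree = m := by
        ext i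
        fin_cases i
        · simp [hm']
        · simp [hm', h]
      have e2 : m' 0 = m 0 := by simp [hm']
      have e3 : m' 1 + G.totalDegree = m 1 := by
        have := DFunLike.congr_fun e1 1
        simpa using this
      refine good_congr (Q := monomial m' c * G0 G) ?_ ?_
      · refine ⟨monomial m' c * C (G.coeff (Finsupp.single 1 G.totalDegree))⁻¹, ?_⟩
        unfold G0
        rw [mul_sub, monomial_mul, e1, mul_one]
        ring
      · have e4 : monomial m' c * G0 G =
            ∑ e ∈ (G0 G).support, monomial (m' + e) (c * coeff e (G0 G)) := by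
          conv_lhs => rw [(G0 G).as_sum, Finset.mul_sum]
          exact Finset.sum_congr rfl fun e _ => by rw [monomial_mul]
        rw [e4]
        refine good_sum _ _ fun e he => ?_
        obtain ⟨h5, h6⟩ := G0_supp hG he
        have h7 : (m' + e) 1 = m' 1 + e 1 := rfl
        have h8 : (m' + e) 0 = m' 0 + e 0 := rfl
        exact ih ((m' + e) 1) (by omega) (m' + e) rfl (by omega) _

end

theorem red_ : Pool.Agent.N162.CW.StRED := by
  classical
  intro Ω _ G hG _ P k hP
  have h : Good G G.totalDegree k P := by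
    rw [P.as_sum]
    exact good_sum _ _ fun m hm => good_mono hG k _ m rfl ((deg_le hm).trans hP) _
  obtain ⟨P', h1, h2⟩ := h
  refine ⟨P', h1, deg_of fun m hm => (h2 m hm).1, ?_⟩
  have h3 : P'.support.card ≤ (Finset.range G.totalDegree ×ˢ Finset.range (k + 1)).card := by
    refine Finset.card_le_card_of_injOn (fun m => (m 1, m 0)) (fun m hm => ?_) ?_
    · obtain ⟨h4, h5⟩ := h2 m hm
      simp only [Finset.coe_product, Finset.coe_range, Set.mem_prod, Set.mem_Iio]
      exact ⟨h5, by omega⟩
    · intro m _ m' _ h4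
      simp only [Prod.mk.injEq] at h4
      ext i
      fin_cases i
      · exact h4.2
      · exact h4.1
  rwa [Finset.card_product, Finset.card_range, Finset.card_range] at h3

end Pool.Agent.N232.CW
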